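import Pool.Agent.H677.HD.Tw
import Pool.Agent.H677.GW.Act

/-!
# Indexed bijections: isomorphic copies, cones, labelled `K`-subsets
-/

set_option autoImplicit false
set_option linter.unusedSectionVars false

namespace Pool.Agent.H677.HD

open Finset Pool.Agent.H677.SC Pool.Agent.H677.JK Pool.Agent.H677.JS Pool.Agent.TH658.Sos
  Pool.Agent.Y598.Circ Pool.Agent.W185.SRG Pool.Agent.H677.GW
open Pool.Agent.TH658.Sos.Act (lvT lv_le_lvT lvT_congr)

variable {X L : Type} [AddCommGroup X] [SemilatticeSup L] [OrderBot L] {S : Sys X L}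
  {V V' W W' : Type} {G : SimpleGraph V} {H : SimpleGraph V'} {c : ℕ}

/-- There are bijections of the vertices indexed by the elements of `X`. -/
def Adm (S : Sys X L) (c : ℕ) (G : SimpleGraph V) (H : SimpleGraph V') : Prop :=
  ∃ A : Act S G H, A.Torsor ∧ A.c ≤ c

theorem Adm.iso {G' : SimpleGraph W} {H' : SimpleGraph W'} (h : Adm S c G' H') (φ : G ≃g G')
    (ψ : H ≃g H') : Adm S c G H := by
  obtain ⟨A, hA, hc⟩ := h
  refine ⟨{ b := fun M => φ.toEquiv.trans ((A.b M).trans ψ.toEquiv.symm)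
            lv := fun u => A.lv (φ u)
            lv' := fun u => A.lv' (ψ u)
            c := A.c
            inv := ?_, lev := ?_, size := ?_, iso := ?_ }, ?_, hc⟩
  · intro M n u hn
    show ψ.toEquiv.symm (A.b (M + n) (φ u)) = ψ.toEquiv.symm (A.b M (φ u))
    rw [A.inv M n (φ u) hn]
  · intro M u
    show A.lv' (ψ (ψ.symm (A.b M (φ u)))) = A.lv (φ u)
    rw [RelIso.apply_symm_apply, A.lev]
  · exact fun u => A.size (φ u)
  · intro u u' M hM
    show G.Adj u u' ↔ H.Adj (ψ.symm (A.b M (φ u))) (ψ.symm (A.b M (φ u')))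
    rw [ψ.symm.map_adj_iff, ← A.iso _ _ M hM, φ.map_adj_iff]
  · intro M h u
    show ψ.symm (A.b (M + h) (φ u)) = ψ.symm (A.b M (φ (φ.symm ((A.b 0).symm
      (ψ (ψ.symm (A.b h (φ u))))))))
    rw [RelIso.apply_symm_apply, RelIso.apply_symm_apply, hA M h (φ u)]

/-! ### The Weisfeiler-Leman method -/

theorem act_wl [Fintype V] [Fintype V'] (A : Act S G H) (k : ℕ) (hk : A.c * (k + 1) ≤ S.K) :
    WLEquivalent k G H := by
  classical
  have hN : ∀ {W : L} {M M' : X}, M' - M ∈ S.N W → ∀ u, A.lv u ≤ W → A.b M' u = A.b M u := by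
    intro W M M' h u hu
    have h1 := A.inv M (M' - M) u (S.N_anti _ _ hu h)
    rwa [show M + (M' - M) = M' by abel] at h1
  refine Game.wlEquivalent (k := k)
    { Good := fun n T T' => ∃ M ∈ S.Sol (lvT A.lv T), T' = fun i => A.b M (T i)
      zero := ?_, ext := ?_, restr := ?_, iso := ?_ }
  · intro T T'
    obtain ⟨M, hM⟩ := S.nonempty (lvT A.lv T) (by
      have := A.size_lvT T
      simp only [Fintype.card_fin, Nat.mul_zero, Nat.le_zero] at this
      omega)
    exact ⟨M, hM, Subsingleton.elim _ _⟩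
  · rintro n hn T _ ⟨M, hM, rfl⟩
    have hsz : ∀ x, S.size (lvT A.lv T ⊔ A.lv x) ≤ S.K := by
      intro x
      refine le_trans ?_ hk
      have h1 := S.size_sup (lvT A.lv T) (A.lv x)
      have h2 := A.size_lvT T
      have h3 := A.size x
      rw [Fintype.card_fin] at h2
      have h4 : A.c * n ≤ A.c * k := Nat.mul_le_mul_left _ hn
      rw [mul_add, mul_one]
      omega
    have hex : ∀ w : L, ∃ M' : X, (∃ x, A.lv x = w) → M' ∈ S.Sol (lvT A.lv T ⊔ w) ∧
        M' - M ∈ S.N (lvT A.lv T) := by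
      intro w
      by_cases hw : ∃ x, A.lv x = w
      · obtain ⟨x, rfl⟩ := hw
        obtain ⟨M', h1, h2⟩ := S.extend _ (lvT A.lv T ⊔ A.lv x) le_sup_left (hsz x) M hM
        exact ⟨M', fun _ => ⟨h1, h2⟩⟩
      · exact ⟨M, fun h => absurd h hw⟩
    choose f hf using hex
    have hinj : Function.Injective fun x => A.b (f (A.lv x)) x := by
      intro x y hxy
      have h1 : A.lv x = A.lv y := by
        have h2 := congrArg A.lv' hxy
        simp only [A.lev] at h2
        exact h2
      simp only [h1] at hxy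
      exact (A.b _).injective hxy
    have hbij : Function.Bijective fun x => A.b (f (A.lv x)) x :=
      (Fintype.bijective_iff_injective_and_card _).2 ⟨hinj, Fintype.card_congr (A.b 0)⟩
    refine ⟨Equiv.ofBijective _ hbij, fun x => ?_⟩
    obtain ⟨h1, h2⟩ := hf (A.lv x) ⟨x, rfl⟩
    refine ⟨f (A.lv x), S.Sol_anti _ _ ?_ h1, ?_⟩
    · refine Finset.sup_le fun i _ => ?_
      refine Fin.lastCases ?_ (fun i => ?_) i
      · rw [Fin.snoc_last]
        exact le_sup_right
      · rw [Fin.snoc_castSucc]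
        exact (lv_le_lvT T i).trans le_sup_left
    · funext i
      refine Fin.lastCases ?_ (fun i => ?_) i
      · rw [Fin.snoc_last, Fin.snoc_last]
        rfl
      · rw [Fin.snoc_castSucc, Fin.snoc_castSucc]
        exact (hN h2 _ (lv_le_lvT T i)).symm
  · rintro n m σ T _ ⟨M, hM, rfl⟩
    refine ⟨M, S.Sol_anti _ _ ?_ hM, rfl⟩
    exact Finset.sup_le fun i _ => lv_le_lvT T (σ i)
  · rintro T _ ⟨M, hM, rfl⟩
    unfold isoType
    refine Prod.ext ?_ ?_
    · funext i j
      exact propext (A.b M).injective.eq_iff.symm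
    · funext i j
      exact propext (A.iso _ _ M (S.Sol_anti _ _ (sup_le (lv_le_lvT T i) (lv_le_lvT T j)) hM))

/-- The methods do not distinguish the graphs. -/
theorem Adm.indist [Fintype X] [Fintype V] [Fintype V'] (h : Adm S c G H) {k : ℕ}
    (hX : ∀ (K : Type) [Field K], (2 : K) ≠ 0 → (Fintype.card X : K) ≠ 0)
    (hK : 12 * (c * (k + 1)) ≤ S.K) : Indistinguishable k G H := by
  obtain ⟨A, hA, hc⟩ := h
  have h1 : A.c * (k + 1) ≤ c * (k + 1) := Nat.mul_le_mul_right _ hc
  have h2 : A.c * (k + 1) = A.c * k + A.c := by ring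
  refine ⟨act_wl A k (by omega), ?_, ?_, ?_⟩
  · refine Act.imEquiv hA (p := 2) ?_ (by omega) (by omega)
    intro K _ hp
    exact hX K (by exact_mod_cast hp)
  · intro K _ hp
    exact A.not_pcRefutes K (hX K hp) (by omega)
  · exact A.not_posRefutes (by omega)

/-! ### Cones -/

/-- The extension of a permutation that fixes the last point. -/
def extE {n : ℕ} (φ : Fin n ≃ Fin n) : Fin (n + 1) ≃ Fin (n + 1) :=
  finSuccEquivLast.trans ((Equiv.optionCongr φ).trans finSuccEquivLast.symm)

theorem extE_castSucc {n : ℕ} (φ : Fin n ≃ Fin n) (i : Fin n) :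
    extE φ i.castSucc = (φ i).castSucc := by
  unfold extE
  simp

theorem extE_last {n : ℕ} (φ : Fin n ≃ Fin n) : extE φ (Fin.last n) = Fin.last n := by
  unfold extE
  simp

theorem extE_symm_castSucc {n : ℕ} (φ : Fin n ≃ Fin n) (i : Fin n) :
    (extE φ).symm i.castSucc = (φ.symm i).castSucc := by
  rw [Equiv.symm_apply_eq, extE_castSucc, Equiv.apply_symm_apply]

theorem extE_symm_last {n : ℕ} (φ : Fin n ≃ Fin n) : (extE φ).symm (Fin.last n) = Fin.last n := by
  rw [Equiv.symm_apply_eq, extE_last]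

theorem Adm.cone {n : ℕ} {G H : SimpleGraph (Fin n)} (h : Adm S c G H) :
    Adm S c (cone G) (cone H) := by
  obtain ⟨A, hA, hc⟩ := h
  refine ⟨{ b := fun M => extE (A.b M)
            lv := Fin.lastCases (motive := fun _ => L) ⊥ A.lv
            lv' := Fin.lastCases (motive := fun _ => L) ⊥ A.lv'
            c := A.c
            inv := ?_, lev := ?_, size := ?_, iso := ?_ }, ?_, hc⟩
  · intro M n' u
    refine Fin.lastCases ?_ (fun u => ?_) u
    · intro _
      rw [extE_last, extE_last]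
    · intro hn
      rw [Fin.lastCases_castSucc] at hn
      rw [extE_castSucc, extE_castSucc, A.inv M n' u hn]
  · intro M u
    refine Fin.lastCases ?_ (fun u => ?_) u
    · rw [extE_last, Fin.lastCases_last, Fin.lastCases_last]
    · rw [extE_castSucc, Fin.lastCases_castSucc, Fin.lastCases_castSucc, A.lev]
  · intro u
    refine Fin.lastCases ?_ (fun u => ?_) u
    · rw [Fin.lastCases_last, S.size_bot]
      exact Nat.zero_le _
    · rw [Fin.lastCases_castSucc]
      exact A.size u
  · intro u u' M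
    refine Fin.lastCases ?_ (fun u => ?_) u
    · intro _
      rw [extE_last]
      refine Fin.lastCases ?_ (fun u' => ?_) u'
      · rw [extE_last]
        exact iff_of_false (SimpleGraph.irrefl _) (SimpleGraph.irrefl _)
      · rw [extE_castSucc]
        exact iff_of_true (cone_last G (Fin.castSucc_lt_last _).ne)
          (cone_last H (Fin.castSucc_lt_last _).ne)
    · refine Fin.lastCases ?_ (fun u' => ?_) u'
      · intro _
        rw [extE_last, extE_castSucc]
        exact iff_of_true (cone_last G (Fin.castSucc_lt_last _).ne).symm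
          (cone_last H (Fin.castSucc_lt_last _).ne).symm
      · intro hM
        rw [Fin.lastCases_castSucc, Fin.lastCases_castSucc] at hM
        rw [extE_castSucc, extE_castSucc, cone_castSucc, cone_castSucc]
        exact A.iso u u' M hM
  · intro M h u
    refine Fin.lastCases ?_ (fun u => ?_) u
    · show extE (A.b (M + h)) _ = extE (A.b M) ((extE (A.b 0)).symm (extE (A.b h) _))
      rw [extE_last, extE_last, extE_symm_last, extE_last]
    · show extE (A.b (M + h)) _ = extE (A.b M) ((extE (A.b 0)).symm (extE (A.b h) _))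
      rw [extE_castSucc, extE_castSucc, extE_symm_castSucc, extE_castSucc, hA M h u]

theorem Adm.cones {n : ℕ} {G H : SimpleGraph (Fin n)} (h : Adm S c G H) (m : ℕ) :
    Adm S c (cones G m) (cones H m) := by
  induction m with
  | zero => exact h
  | succ m ih => exact ih.cone

/-! ### Labelled subsets -/

section labelled

variable {n K : ℕ} {G H : SimpleGraph (Fin n)} (A : Act S G H)

/-- The level of a set of points. -/
def lvP (K : ℕ) {n : ℕ} (lv : Fin n → L) (T : Finset (Fin (n + ex K n))) : L :=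
  (univ.filter fun v => es K n v ∈ T).sup lv

theorem lv_le_lvP {lv : Fin n → L} {T : Finset (Fin (n + ex K n))} {v : Fin n}
    (hv : es K n v ∈ T) : lv v ≤ lvP K lv T :=
  Finset.le_sup (f := lv) (mem_filter.2 ⟨mem_univ v, hv⟩)

theorem size_sup_le (s : Finset (Fin n)) : S.size (s.sup A.lv) ≤ A.c * s.card := by
  induction s using Finset.induction_on with
  | empty => simp [S.size_bot]
  | insert p s hp ih =>
    rw [Finset.sup_insert, Finset.card_insert_of_notMem hp]
    have h1 := S.size_sup (A.lv p) (s.sup A.lv)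
    have h2 := A.size p
    rw [mul_add, mul_one]
    omega

theorem size_lvP {T : Finset (Fin (n + ex K n))} (hT : T.card = K) :
    S.size (lvP K A.lv T) ≤ K * A.c := by
  refine (size_sup_le A _).trans ?_
  rw [mul_comm]
  refine Nat.mul_le_mul_right _ ?_
  refine le_trans ?_ hT.le
  rw [← card_map ⟨es K n, Fin.castAdd_injective _ _⟩]
  refine card_le_card fun p hp => ?_
  obtain ⟨v, hv, rfl⟩ := mem_map.1 hp
  exact (mem_filter.1 hv).2

/-- A point that is not an image of a vertex is fixed. -/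
theorem liftPt_fix (φ : Fin n ≃ Fin n) (p : Fin (n + ex K n)) (hp : ∀ v, es K n v ≠ p) :
    liftPt K φ p = p := by
  have h1 : n ≤ (p : ℕ) := by
    by_contra h
    exact hp ⟨p, by omega⟩ (Fin.ext rfl)
  have h2 : p = Fin.natAdd n ⟨(p : ℕ) - n, by have := p.isLt; omega⟩ := by
    refine Fin.ext ?_
    simp only [Fin.val_natAdd]
    omega
  rw [h2, liftPt_natAdd]

theorem liftPt_comp {φ φ₂ φ₃ : Fin n ≃ Fin n} (h : ∀ v, φ₃ v = φ₂ (φ v))
    (p : Fin (n + ex K n)) : liftPt K φ₃ p = liftPt K φ₂ (liftPt K φ p) := by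
  by_cases hp : ∃ v, es K n v = p
  · obtain ⟨v, rfl⟩ := hp
    rw [liftPt_es, liftPt_es, liftPt_es, h]
  · have hp' : ∀ v, es K n v ≠ p := fun v hv => hp ⟨v, hv⟩
    rw [liftPt_fix φ p hp', liftPt_fix φ₂ p hp', liftPt_fix φ₃ p hp']

theorem mem_map_liftPt (φ : Fin n ≃ Fin n) (T : Finset (Fin (n + ex K n))) (v : Fin n) :
    es K n (φ v) ∈ T.map (liftPt K φ).toEmbedding ↔ es K n v ∈ T := by
  have h1 : es K n (φ v) = liftPt K φ (es K n v) := (liftPt_es K φ v).symm
  rw [h1, mem_map_equiv, Equiv.symm_apply_apply]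

theorem lvP_map {lv lv' : Fin n → L} (φ : Fin n ≃ Fin n) (h : ∀ v, lv' (φ v) = lv v)
    (T : Finset (Fin (n + ex K n))) :
    lvP K lv' (T.map (liftPt K φ).toEmbedding) = lvP K lv T := by
  refine le_antisymm (Finset.sup_le fun v hv => ?_) (Finset.sup_le fun v hv => ?_)
  · have h1 := (mem_filter.1 hv).2
    obtain ⟨v, rfl⟩ := φ.surjective v
    rw [mem_map_liftPt] at h1
    rw [h]
    exact lv_le_lvP h1
  · have h1 := (mem_filter.1 hv).2
    rw [← h, ← mem_map_liftPt φ] at *
    exact lv_le_lvP h1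

/-- The first special point. -/
theorem exists_q (hK : 3 ≤ K) (n : ℕ) : ∃ q, q ∈ Qs K n := by
  have h1 := (dat K n hK).card
  exact card_pos.1 (by omega)

theorem liftPt_q {q : Fin (n + ex K n)} (hq : q ∈ Qs K n) (φ : Fin n ≃ Fin n) :
    liftPt K φ q = q :=
  liftPt_fix φ q fun v hv => by
    have h1 := (mem_filter.1 hq).2.1
    rw [← hv] at h1
    have h2 : ((es K n v : Fin (n + ex K n)) : ℕ) = v := rfl
    have := v.isLt
    omega

theorem twOk {q : Fin (n + ex K n)} (hq : q ∈ Qs K n) (φ : Fin n ≃ Fin n) :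
    TwOk K q (bs K G) (bs K H) (liftPt K φ) := by
  refine ⟨liftPt_q hq φ, fun T _ h => ?_⟩
  by_contra hqT
  refine h (iff_of_false (fun h1 => hqT (h1.1 hq)) fun h1 => hqT ?_)
  have h2 := h1.1 hq
  rw [← liftPt_q hq φ, mem_map_equiv, Equiv.symm_apply_apply] at h2
  exact h2

theorem bs_iff {M : X} {W : L} (hM : M ∈ S.Sol W) {T : Finset (Fin (n + ex K n))}
    (hT : lvP K A.lv T ≤ W) :
    bs K G T ↔ bs K H (T.map (liftPt K (A.b M)).toEmbedding) := by
  unfold bs bG
  refine and_congr ?_ ?_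
  · have h1 := liftPt_Qs K (A.b M)
    conv_rhs => rw [← h1]
    exact map_subset_map.symm
  · constructor
    · rintro ⟨u, w, h1, h2, h3⟩
      refine ⟨A.b M u, A.b M w, ?_, (mem_map_liftPt _ _ _).2 h2, (mem_map_liftPt _ _ _).2 h3⟩
      exact (A.iso u w M (S.Sol_anti _ _ (sup_le ((lv_le_lvP h2).trans hT)
        ((lv_le_lvP h3).trans hT)) hM)).1 h1
    · rintro ⟨u, w, h1, h2, h3⟩
      obtain ⟨u, rfl⟩ := (A.b M).surjective u
      obtain ⟨w, rfl⟩ := (A.b M).surjective w
      have h2' := (mem_map_liftPt _ _ _).1 h2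
      have h3' := (mem_map_liftPt _ _ _).1 h3
      exact ⟨u, w, (A.iso u w M (S.Sol_anti _ _ (sup_le ((lv_le_lvP h2').trans hT)
        ((lv_le_lvP h3').trans hT)) hM)).2 h1, h2', h3'⟩

end labelled

/-- **Labelled subsets of graphs with indexed bijections have indexed bijections.** -/
theorem Adm.GS {n K : ℕ} (hK : 3 ≤ K) {G H : SimpleGraph (Fin n)} (h : Adm S c G H) :
    Adm S (K * c) (GS K G) (GS K H) := by
  obtain ⟨A, hA, hc⟩ := h
  obtain ⟨q, hq⟩ := exists_q hK n
  have ok : ∀ {G H : SimpleGraph (Fin n)} (φ : Fin n ≃ Fin n),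
      TwOk K q (bs K G) (bs K H) (liftPt K φ) := fun φ => twOk hq φ
  refine ⟨{ b := fun M => twE (ok (A.b M))
            lv := fun x => lvP K A.lv x.T
            lv' := fun x => lvP K A.lv' x.T
            c := K * A.c
            inv := ?_, lev := ?_, size := ?_, iso := ?_ }, ?_, Nat.mul_le_mul_left _ hc⟩
  · intro M n' x hn
    refine tw_congr (ok (A.b (M + n'))) (ok (A.b M)) x fun p hp => ?_
    by_cases h1 : ∃ v, es K n v = p
    · obtain ⟨v, rfl⟩ := h1
      rw [liftPt_es, liftPt_es, A.inv M n' v (S.N_anti _ _ (lv_le_lvP hp) hn)]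
    · have h2 : ∀ v, es K n v ≠ p := fun v hv => h1 ⟨v, hv⟩
      rw [liftPt_fix _ p h2, liftPt_fix _ p h2]
  · intro M x
    exact lvP_map (A.b M) (A.lev M) x.T
  · exact fun x => size_lvP A x.hT
  · intro x y M hM
    exact tw_adj (ok (A.b M)) x y (bs_iff A hM le_sup_left) (bs_iff A hM le_sup_right)
  · intro M h x
    show tw (ok (A.b (M + h))) x = tw (ok (A.b M)) (tw (ok (A.b 0)).symm (tw (ok (A.b h)) x))
    have h4 : TwOk K q (bs K G) (bs K G) (liftPt K ((A.b h).trans (A.b 0).symm)) := ok _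
    rw [tw_comp (ok (A.b h)) (ok (A.b 0)).symm h4, tw_comp h4 (ok (A.b M)) (ok (A.b (M + h)))]
    · exact liftPt_comp fun v => hA M h v
    · intro p
      rw [eq_comm, Equiv.symm_apply_eq, ← liftPt_comp (φ₃ := A.b h)]
      intro v
      show A.b h v = A.b 0 ((A.b 0).symm (A.b h v))
      rw [Equiv.apply_symm_apply]

end Pool.Agent.H677.HD
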