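import Pool.Agent.H677.HD.Param
import Pool.Agent.H677.SC.Red

/-!
# The labelled `K`-subsets of the bundles
-/

set_option autoImplicit false
set_option linter.unusedSectionVars false

namespace Pool.Agent.NPC.HD677

open Pool.Agent.NPC Pool.Agent.NPC.UB129 Pool.Agent.NPC.R671 Pool.Agent.NPC.GW677
  Pool.Agent.NPC.SC677 Pool.Agent.H677.SC Pool.Agent.H677.GW Pool.Agent.H677.HD
  Pool.Agent.H677.JK Pool.Agent.Y598.IM Pool.Agent.Y598.CG Pool.Agent.Y598.VT

/-- The bundles for two graphs with `n` vertices. -/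
theorem adm_TT (C n : ℕ) (G H : SimpleGraph (Fin n)) :
    Adm ((FF C n).toSys (bitsOf G) (bitsOf H)) 2 (TT (mm C) (XX C) n G)
      (TT (mm C) (XX C) n H) := by
  refine ⟨toAct (FF C n) (TTiso' C n G).toEquiv ?_ (TTiso' C n H).toEquiv ?_,
    toAct_torsor _ _ _ _ _, le_of_eq rfl⟩
  · exact fun x y => (TTiso' C n G).map_adj_iff.symm
  · exact fun x y => (TTiso' C n H).map_adj_iff.symm

/-- The graph. -/
noncomputable def TF (K C n : ℕ) (G : SimpleGraph (Fin n)) :
    SimpleGraph (Fin (numC K (size (mm C) n + 3) (cones (TT (mm C) (XX C) n G) 3))) :=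
  TS K _ (TT (mm C) (XX C) n G)

/-- The graphs are not distinguished. -/
theorem indist_TF {K C n : ℕ} (hK : 3 ≤ K) (G H : SimpleGraph (Fin n)) {V1 V2 : Type}
    [Fintype V1] [Fintype V2] {G' : SimpleGraph V1} {H' : SimpleGraph V2} (φ : G' ≃g TF K C n G)
    (ψ : H' ≃g TF K C n H) {k : ℕ} (hk : 12 * (K * 2 * (k + 1)) ≤ 3 ^ (qq C n + 1 - 4)) :
    Indistinguishable k G' H' := by
  have h1 := ((adm_TT C n G H).cones 3).GS hK
  have h2 := h1.iso (φ.trans (TCiso _ _ _)) (ψ.trans (TCiso _ _ _))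
  let _ : Fintype (Fin n × Fin n → Ed (qq C n + 1) → ZMod 2) := Fintype.ofFinite _
  refine h2.indist ?_ hk
  intro K' _ hK'
  rw [← Nat.card_eq_fintype_card, Nat.card_fun, Nat.card_fun, Nat.card_zmod, Nat.cast_pow,
    Nat.cast_pow]
  exact pow_ne_zero _ (pow_ne_zero _ (by exact_mod_cast hK'))

/-- The reduction. -/
def redF (K C : ℕ) (M : Mat) : Mat := redS K (red (mm C) (adjXX C) M)

theorem poly_redF (K C : ℕ) : Poly (redF K C) :=
  (poly_redS K).comp (poly_red (GW677.upoly_mm C) (GW677.poly_adjXX C))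

theorem redF_adjMatrix (K C n : ℕ) (G : SimpleGraph (Fin n)) :
    redF K C (adjMatrix G) = adjMatrix (TF K C n G) := by
  unfold redF
  rw [red_adjMatrix (X := XX C) (fun n c s t => adjXX_iff C n c s t), redS_adjMatrix]
  rfl

theorem TF_iff {K : ℕ} (hK : 3 ≤ K) (C n n' : ℕ) (G : SimpleGraph (Fin n))
    (H : SimpleGraph (Fin n')) : Nonempty (TF K C n G ≃g TF K C n' H) ↔ Nonempty (G ≃g H) := by
  unfold TF
  rw [TS_iff hK]
  exact TT_iso_iff (mm_mono C) (fun n c u => XX_degree C n c u) (mm_gt C) (XX_not_iso C) G H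

end Pool.Agent.NPC.HD677
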