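import Pool.Agent.H677.HD.Adm
import Pool.Agent.H677.JK.Graph

/-!
# Indexed bijections: the exchanged Johnson graphs
-/

set_option autoImplicit false
set_option linter.unusedSectionVars false

namespace Pool.Agent.H677.HD

open Finset Pool.Agent.H677.JK Pool.Agent.H677.JS

variable {X L : Type} [AddCommGroup X] [SemilatticeSup L] [OrderBot L]
  {S : Pool.Agent.TH658.Sos.Sys X L} {c : ℕ}

section

variable {n i : ℕ} {G H : SimpleGraph (Fin n)} (A : Pool.Agent.TH658.Sos.Act S G H)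

/-- The bijection of the points. -/
def ptE (i : ℕ) {n : ℕ} (φ : Fin n ≃ Fin n) : Fin (n * i) ≃ Fin (n * i) :=
  finProdFinEquiv.symm.trans ((Equiv.prodCongr φ (Equiv.refl _)).trans finProdFinEquiv)

theorem vx_ptE (φ : Fin n ≃ Fin n) (p : Fin (n * i)) : vx n i (ptE i φ p) = φ (vx n i p) := by
  show (finProdFinEquiv.symm (finProdFinEquiv _)).1 = φ (vx n i p)
  rw [Equiv.symm_apply_apply]
  try rfl

theorem ptE_comp {φ φ₂ φ₃ : Fin n ≃ Fin n} (h : ∀ v, φ₃ v = φ₂ (φ v)) (p : Fin (n * i)) :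
    ptE i φ₃ p = ptE i φ₂ (ptE i φ p) := by
  show finProdFinEquiv (φ₃ _, _) = finProdFinEquiv (φ₂ (finProdFinEquiv.symm (finProdFinEquiv
    (φ _, _))).1, (finProdFinEquiv.symm (finProdFinEquiv (φ _, _))).2)
  rw [Equiv.symm_apply_apply, h]
  try rfl

theorem ptE_congr {φ φ' : Fin n ≃ Fin n} {p : Fin (n * i)} (h : φ (vx n i p) = φ' (vx n i p)) :
    ptE i φ p = ptE i φ' p := by
  show finProdFinEquiv (φ (vx n i p), _) = finProdFinEquiv (φ' (vx n i p), _)
  rw [h]

/-- The level of a set of points. -/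
def lvQ (lv : Fin n → L) (T : Finset (Fin (n * i))) : L := T.sup fun p => lv (vx n i p)

theorem lvQ_map {lv lv' : Fin n → L} (φ : Fin n ≃ Fin n) (h : ∀ v, lv' (φ v) = lv v)
    (T : Finset (Fin (n * i))) : lvQ lv' (T.map (ptE i φ).toEmbedding) = lvQ lv T := by
  unfold lvQ
  rw [Finset.sup_map]
  refine Finset.sup_congr rfl fun p _ => ?_
  show lv' (vx n i (ptE i φ p)) = _
  rw [vx_ptE, h]

theorem size_lvQ (T : Finset (Fin (n * i))) : S.size (lvQ A.lv T) ≤ A.c * T.card := by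
  unfold lvQ
  induction T using Finset.induction_on with
  | empty => simp [S.size_bot]
  | insert p s hp ih =>
    rw [Finset.sup_insert, Finset.card_insert_of_notMem hp]
    have h1 := S.size_sup (A.lv (vx n i p)) (s.sup fun p => A.lv (vx n i p))
    have h2 := A.size (vx n i p)
    rw [mul_add, mul_one]
    omega

/-- A set that is contained in the points of two vertices has points of both. -/
theorem lv_le {T : Sb (Fin (n * i)) (i + 1)} {u w : Fin n}
    (h : ∀ p ∈ T.1, vx n i p = u ∨ vx n i p = w) : A.lv u ≤ lvQ A.lv T.1 := by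
  have h1 : ∃ p ∈ T.1, vx n i p = u := by
    by_contra hcon
    have h2 : T.1 ⊆ fib (vx n i) w := by
      intro p hp
      rw [mem_fib]
      rcases h p hp with h3 | h3
      · exact absurd ⟨p, hp, h3⟩ hcon
      · exact h3
    have h3 := card_le_card h2
    rw [fibs_vx n i w, T.2] at h3
    omega
  obtain ⟨p, hp, rfl⟩ := h1
  exact Finset.le_sup (f := fun p => A.lv (vx n i p)) hp

theorem YG_local {M : X} {W : L} (hM : M ∈ S.Sol W) {T : Sb (Fin (n * i)) (i + 1)}
    (hT : lvQ A.lv T.1 ≤ W) {R : Finset (Fin (n * i))} (hR : T.1 ⊆ R) :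
    YG H (vx n i) (R.map (ptE i (A.b M)).toEmbedding) ↔ YG G (vx n i) R := by
  have key : ∀ u w : Fin n, (∀ p, p ∈ R ↔ vx n i p = u ∨ vx n i p = w) →
      (G.Adj u w ↔ H.Adj (A.b M u) (A.b M w)) := by
    intro u w h
    refine A.iso u w M (S.Sol_anti _ _ (sup_le ?_ ?_) hM)
    · exact (lv_le A fun p hp => (h p).1 (hR hp)).trans hT
    · exact (lv_le A fun p hp => ((h p).1 (hR hp)).symm).trans hT
  have hmem : ∀ (u w : Fin n), (∀ p, p ∈ R.map (ptE i (A.b M)).toEmbedding ↔
      vx n i p = A.b M u ∨ vx n i p = A.b M w) ↔ ∀ p, p ∈ R ↔ vx n i p = u ∨ vx n i p = w := by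
    intro u w
    rw [(ptE i (A.b M)).surjective.forall]
    refine forall_congr' fun p => ?_
    rw [mem_map_equiv, Equiv.symm_apply_apply, vx_ptE, (A.b M).injective.eq_iff,
      (A.b M).injective.eq_iff]
  constructor
  · rintro ⟨u, w, h1, h2⟩
    obtain ⟨u, rfl⟩ := (A.b M).surjective u
    obtain ⟨w, rfl⟩ := (A.b M).surjective w
    have h3 := (hmem u w).1 h2
    exact ⟨u, w, (key u w h3).2 h1, h3⟩
  · rintro ⟨u, w, h1, h2⟩
    exact ⟨A.b M u, A.b M w, (key u w h2).1 h1, (hmem u w).2 h2⟩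

theorem inc_local {M : X} {W : L} (hM : M ∈ S.Sol W) {T : Sb (Fin (n * i)) (i + 1)}
    (hT : lvQ A.lv T.1 ≤ W) (e : Sb (Fin (n * i)) i) :
    JK.inc (YG H (vx n i)) (mapSb (ptE i (A.b M)) i e) (mapSb (ptE i (A.b M)) (i + 1) T) ↔
      JK.inc (YG G (vx n i)) e T := by
  have hπ := fun {R : Finset (Fin (n * i))} (hR : T.1 ⊆ R) => YG_local A hM hT hR
  have hsurj : ∀ S' : Finset (Fin (n * i)), ∃ R : Finset (Fin (n * i)),
      R.map (ptE i (A.b M)).toEmbedding = S' := by
    intro S'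
    refine ⟨S'.map (ptE i (A.b M)).symm.toEmbedding, ?_⟩
    ext x
    simp
  have e1 : (mapSb (ptE i (A.b M)) i e).1 = e.1.map (ptE i (A.b M)).toEmbedding := rfl
  have e2 : (mapSb (ptE i (A.b M)) (i + 1) T).1 = T.1.map (ptE i (A.b M)).toEmbedding := rfl
  unfold JK.inc
  rw [e1, e2]
  refine or_congr (and_congr map_subset_map ?_) ?_
  · constructor
    · intro h R hR hTR
      exact h _ ((hπ hTR).2 hR) (map_subset_map.2 hTR)
    · intro h S' hS' hTS'
      obtain ⟨R, rfl⟩ := hsurj S'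
      have hTR := map_subset_map.1 hTS'
      exact h R ((hπ hTR).1 hS') hTR
  · constructor
    · rintro ⟨S', hS', h1, h2, h3⟩
      obtain ⟨R, rfl⟩ := hsurj S'
      rw [map_sdiff_equiv] at h2
      have hTR := map_subset_map.1 h1
      exact ⟨R, (hπ hTR).1 hS', hTR, map_subset_map.1 h2, map_subset_map.1 h3⟩
    · rintro ⟨R, hR, h1, h2, h3⟩
      refine ⟨_, (hπ h1).2 hR, map_subset_map.2 h1, ?_, map_subset_map.2 h3⟩
      rw [map_sdiff_equiv]
      exact map_subset_map.2 h2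

end

theorem mapSb_comp {P : Type} [DecidableEq P] {k : ℕ} {π π₂ π₃ : P ≃ P}
    (h : ∀ p, π₃ p = π₂ (π p)) (T : Sb P k) : mapSb π₃ k T = mapSb π₂ k (mapSb π k T) :=
  Subtype.ext (map_map_trans h T.1).symm

/-- **Exchanged Johnson graphs of graphs with indexed bijections have indexed bijections.** -/
theorem Adm.XG {n i : ℕ} {G H : SimpleGraph (Fin n)} (h : Adm S c G H) :
    Adm S ((i + 1) * c) (XG i G) (XG i H) := by
  obtain ⟨A, hA, hc⟩ := h
  refine ⟨{ b := fun M => mapSb (ptE i (A.b M)) (i + 1)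
            lv := fun T => lvQ A.lv T.1
            lv' := fun T => lvQ A.lv' T.1
            c := (i + 1) * A.c
            inv := ?_, lev := ?_, size := ?_, iso := ?_ }, ?_, Nat.mul_le_mul_left _ hc⟩
  · intro M n' T hn
    refine Subtype.ext ?_
    show T.1.map (ptE i (A.b (M + n'))).toEmbedding = T.1.map (ptE i (A.b M)).toEmbedding
    ext p
    simp only [mem_map, Equiv.coe_toEmbedding]
    refine exists_congr fun a => and_congr_right fun ha => ?_
    rw [ptE_congr (A.inv M n' (vx n i a) (S.N_anti _ _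
      (Finset.le_sup (f := fun p => A.lv (vx n i p)) ha) hn))]
  · exact fun M T => lvQ_map (A.b M) (A.lev M) T.1
  · intro T
    refine (size_lvQ A T.1).trans (le_of_eq ?_)
    rw [T.2, mul_comm]
  · intro T T' M hM
    have h1 := fun e => inc_local A hM le_sup_left (T := T) e
    have h2 := fun e => inc_local A hM le_sup_right (T := T') e
    show (T ≠ T' ∧ ∃ e, _ ∧ _) ↔ (mapSb (ptE i (A.b M)) (i + 1) T ≠
      mapSb (ptE i (A.b M)) (i + 1) T' ∧ ∃ e, _ ∧ _)
    refine and_congr (mapSb (ptE i (A.b M)) (i + 1)).injective.ne_iff.symm ?_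
    constructor
    · rintro ⟨e, h3, h4⟩
      exact ⟨mapSb (ptE i (A.b M)) i e, (h1 e).2 h3, (h2 e).2 h4⟩
    · rintro ⟨e, h3, h4⟩
      obtain ⟨e, rfl⟩ := (mapSb (ptE i (A.b M)) i).surjective e
      exact ⟨e, (h1 e).1 h3, (h2 e).1 h4⟩
  · intro M h T
    show mapSb (ptE i (A.b (M + h))) (i + 1) T = mapSb (ptE i (A.b M)) (i + 1)
      ((mapSb (ptE i (A.b 0)) (i + 1)).symm (mapSb (ptE i (A.b h)) (i + 1) T))
    have h4 : (mapSb (ptE i (A.b 0)) (i + 1)).symm (mapSb (ptE i (A.b h)) (i + 1) T) =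
        mapSb (ptE i ((A.b h).trans (A.b 0).symm)) (i + 1) T := by
      rw [Equiv.symm_apply_eq]
      refine mapSb_comp (ptE_comp fun v => ?_) T
      show A.b h v = A.b 0 ((A.b 0).symm (A.b h v))
      rw [Equiv.apply_symm_apply]
    rw [h4]
    exact mapSb_comp (ptE_comp fun v => hA M h v) T

end Pool.Agent.H677.HD
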