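import Pool.Agent.H677.HD.Param2
import Pool.Agent.H677.HD.Johnson
import Pool.Agent.H677.HD.Class
import Pool.Agent.H677.JK.Red

/-!
# The exchanged Johnson graphs of the bundles
-/

set_option autoImplicit false
set_option linter.unusedSectionVars false

namespace Pool.Agent.NPC.HD677

open Pool.Agent.NPC Pool.Agent.NPC.UB129 Pool.Agent.NPC.R671 Pool.Agent.NPC.GW677
  Pool.Agent.NPC.JK677 Pool.Agent.H677.GW Pool.Agent.H677.HD
  Pool.Agent.H677.JK Pool.Agent.Y598.IM Pool.Agent.Y598.CG Pool.Agent.Y598.VT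

/-- The graph. -/
noncomputable def TFJ (i C n : ℕ) (G : SimpleGraph (Fin n)) :
    SimpleGraph (Fin (numX i (size (mm C) n + (i + 3)))) :=
  TJ i _ (TT (mm C) (XX C) n G)

/-- The graphs are not distinguished. -/
theorem indist_TFJ {i C n : ℕ} (G H : SimpleGraph (Fin n)) {V1 V2 : Type}
    [Fintype V1] [Fintype V2] {G' : SimpleGraph V1} {H' : SimpleGraph V2} (φ : G' ≃g TFJ i C n G)
    (ψ : H' ≃g TFJ i C n H) {k : ℕ} (hk : 12 * ((i + 1) * 2 * (k + 1)) ≤ 3 ^ (qq C n + 1 - 4)) :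
    Indistinguishable k G' H' := by
  have h1 := ((adm_TT C n G H).cones (i + 3)).XG (i := i)
  have h2 := h1.iso (φ.trans (TXiso _ _ _)) (ψ.trans (TXiso _ _ _))
  let _ : Fintype (Fin n × Fin n → Ed (qq C n + 1) → ZMod 2) := Fintype.ofFinite _
  refine h2.indist ?_ hk
  intro K' _ hK'
  rw [← Nat.card_eq_fintype_card, Nat.card_fun, Nat.card_fun, Nat.card_zmod, Nat.cast_pow,
    Nat.cast_pow]
  exact pow_ne_zero _ (pow_ne_zero _ (by exact_mod_cast hK'))

/-- The reduction. -/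
def redFJ (i C : ℕ) (M : Mat) : Mat := redJ i (red (mm C) (adjXX C) M)

theorem poly_redFJ (i C : ℕ) : Poly (redFJ i C) :=
  (poly_redJ i).comp (poly_red (GW677.upoly_mm C) (GW677.poly_adjXX C))

theorem redFJ_adjMatrix (i C n : ℕ) (G : SimpleGraph (Fin n)) :
    redFJ i C (adjMatrix G) = adjMatrix (TFJ i C n G) := by
  unfold redFJ
  rw [red_adjMatrix (X := XX C) (fun n c s t => adjXX_iff C n c s t), redJ_adjMatrix]
  rfl

theorem TFJ_iff {i : ℕ} (hi : 2 ≤ i) (C n n' : ℕ) (G : SimpleGraph (Fin n))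
    (H : SimpleGraph (Fin n')) : Nonempty (TFJ i C n G ≃g TFJ i C n' H) ↔ Nonempty (G ≃g H) := by
  unfold TFJ
  rw [TJ_iff hi]
  exact TT_iso_iff (mm_mono C) (fun n c u => XX_degree C n c u) (mm_gt C) (XX_not_iso C) G H

end Pool.Agent.NPC.HD677
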