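import Pool.Agent.H677.HD.Adm
import Pool.Agent.H677.SC.Props
import Pool.Agent.H677.GW.Param

/-!
# The dimension for the labelled `K`-subsets of the bundles
-/

set_option autoImplicit false
set_option linter.unusedSectionVars false

namespace Pool.Agent.H677.HD

open Pool.Agent.NPC.GW677 Pool.Agent.H677.GW Pool.Agent.H677.SC

/-- The constant. -/
def EE (K : ℕ) : ℕ := 62208 * (K * (8 + 16 ^ K + 2 * K))

/-- The number of points for the bundles. -/
def pts (K s : ℕ) : ℕ := s + 3 + ex K (s + 3)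

theorem exists_C' (ρ : ℝ) (hρ : 1 < ρ) (B : ℕ) :
    ∃ C : ℕ, (B : ℝ) * ((C : ℝ) + 3) ≤ ρ ^ (C + 3) ∧ B ≤ C := by
  have h1 := tendsto_pow_const_div_const_pow_of_one_lt 1 hρ
  have h2 : ∀ᶠ n : ℕ in Filter.atTop, (n : ℝ) ^ 1 / ρ ^ n < 1 / ((B : ℝ) + 1) :=
    h1.eventually_lt_const (by positivity)
  obtain ⟨n, hn⟩ := Filter.eventually_atTop.1 h2
  refine ⟨n + B, ?_, Nat.le_add_left _ _⟩
  have h3 := hn (n + B + 3) (by omega)
  rw [pow_one, div_lt_div_iff₀ (by positivity) (by positivity)] at h3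
  push_cast at h3 ⊢
  have h4 : (0 : ℝ) ≤ (n : ℝ) + B + 3 := by positivity
  nlinarith

theorem le_choose (a K : ℕ) (hK : 1 ≤ K) : a + 1 ≤ (a + K).choose K := by
  induction K, hK using Nat.le_induction with
  | base => rw [Nat.choose_one_right]
  | succ K hK ih =>
    rw [← Nat.add_assoc, Nat.choose_succ_succ]
    omega

theorem card_le {K m : ℕ} : 2 ^ (K - 1) * m.choose K ≤ (2 * m) ^ K := by
  rw [mul_pow]
  exact Nat.mul_le_mul (Nat.pow_le_pow_right (by norm_num) (Nat.sub_le _ _))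
    (Nat.choose_le_pow _ _)

/-- The dimension is large enough. -/
theorem param' {ε : ℝ} (hε : 0 < ε) {K C : ℕ} (hK : 1 ≤ K)
    (hC : ((186624 * EE K : ℕ) : ℝ) * ((C : ℝ) + 3) ≤ ((3 : ℝ) ^ (ε / 2)) ^ (C + 3))
    (hC' : 186624 * EE K ≤ C) (n k : ℕ)
    (hk : (k : ℝ) ≤ ((2 ^ (K - 1) * (pts K (size (mm C) n)).choose K : ℕ) : ℝ) ^
      (1 / (K : ℝ) - ε)) : 12 * (K * 2 * (k + 1)) ≤ 3 ^ (qq C n + 1 - 4) := by
  have hq := qq_ge C n
  have hpow : 3 ^ (qq C n + 1 - 4) * 81 = 3 ^ (qq C n + 1) := by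
    have e1 : qq C n + 1 = (qq C n + 1 - 4) + 4 := by omega
    conv_rhs => rw [e1, pow_add]
    norm_num
  obtain ⟨w, hw⟩ : ∃ w, w = 16 ^ K := ⟨_, rfl⟩
  obtain ⟨D, hD⟩ : ∃ D, D = 8 + w + 2 * K := ⟨_, rfl⟩
  have hEE : EE K = 62208 * (K * D) := by rw [hD, hw]; rfl
  obtain ⟨S, hS⟩ : ∃ S, S = (n + 2).size := ⟨_, rfl⟩
  have hS2 : 2 ≤ S := hS ▸ size_ge n
  obtain ⟨r, hr⟩ : ∃ r, r = qq C n + 1 := ⟨_, rfl⟩
  have hr' : r = 2 * ((C + 3) * S) + 1 := by rw [hr, hS]; rfl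
  have hrC : C + 3 ≤ r := by
    have h1 : (C + 3) * 2 ≤ (C + 3) * S := Nat.mul_le_mul_left _ hS2
    omega
  have h3r : r ≤ 3 ^ r := (Nat.lt_pow_self (by norm_num)).le
  have hE3 : EE K ≤ 3 ^ r := by omega
  have hD1 : 1 ≤ D := by omega
  have hKD : K ≤ K * D := Nat.le_mul_of_pos_right K hD1
  obtain ⟨s, hs⟩ : ∃ s, s = size (mm C) n := ⟨_, rfl⟩
  rw [← hs] at hk
  obtain ⟨m, hm⟩ : ∃ m, m = pts K s := ⟨_, rfl⟩
  rw [← hm] at hk
  have hm' : m = 2 * s + 6 + w + 2 * K := by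
    rw [hm, hw]
    unfold pts ex
    ring
  obtain ⟨N, hN⟩ : ∃ N, N = 2 ^ (K - 1) * m.choose K := ⟨_, rfl⟩
  rw [← hN] at hk
  have hsN : s + 1 ≤ N := by
    have h1 := le_choose (m - K) K hK
    rw [Nat.sub_add_cancel (by omega)] at h1
    have h2 : 1 * m.choose K ≤ 2 ^ (K - 1) * m.choose K :=
      Nat.mul_le_mul_right _ (Nat.one_le_pow _ _ (by norm_num))
    omega
  have hN1 : (1 : ℝ) ≤ N := by
    have : 1 ≤ N := by omega
    exact_mod_cast this
  have hN0 : (0 : ℝ) < N := by linarith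
  have hroot : (N : ℝ) ^ (1 / (K : ℝ)) ≤ 2 * m := by
    have h1 : (N : ℝ) ≤ ((2 * m : ℕ) : ℝ) ^ K := by
      rw [hN]
      exact_mod_cast card_le
    calc (N : ℝ) ^ (1 / (K : ℝ)) ≤ (((2 * m : ℕ) : ℝ) ^ K) ^ (1 / (K : ℝ)) :=
          Real.rpow_le_rpow hN0.le h1 (by positivity)
      _ = 2 * m := by
        rw [one_div, Real.pow_rpow_inv_natCast (Nat.cast_nonneg _) (by omega)]
        push_cast
        ring
  have hkN : (k : ℝ) * (N : ℝ) ^ ε ≤ 2 * m := by
    rw [Real.rpow_sub hN0] at hk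
    have h1 : (0 : ℝ) < (N : ℝ) ^ ε := Real.rpow_pos_of_pos hN0 _
    rw [le_div_iff₀ h1] at hk
    exact hk.trans hroot
  have goal1 : 3888 * (K * 1) ≤ 3 ^ r := by omega
  suffices goal2 : 3888 * (K * k) ≤ 3 ^ r by
    rw [← hr] at hpow ⊢
    have h1 : 12 * (K * 2 * (k + 1)) * 81 * 2 = 3888 * (K * k) + 3888 * (K * 1) := by ring
    omega
  rcases Nat.eq_zero_or_pos n with rfl | hn
  · -- no vertices
    have hs0 : s = 0 := by rw [hs]; simp [size]
    have hmD : m ≤ D := by omega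
    have h1 : (k : ℝ) ≤ 2 * m := by
      refine le_trans ?_ hkN
      have h2 : (1 : ℝ) ≤ (N : ℝ) ^ ε := Real.one_le_rpow hN1 hε.le
      nlinarith [Nat.cast_nonneg (α := ℝ) k]
    have h2 : k ≤ 2 * m := by exact_mod_cast h1
    have h3 : K * k ≤ K * (2 * D) := Nat.mul_le_mul_left _ (by omega)
    have h4 : K * (2 * D) = 2 * (K * D) := by ring
    omega
  · have hmm : mm C n = 8 * r * 3 ^ r := by
      rw [hr]
      unfold mm
      ring
    have hN1' := size_le C n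
    rw [hmm, ← hS, ← hs] at hN1'
    have hN2 : 3 ^ r ≤ s := by
      rw [hs]
      unfold size
      rw [hmm]
      have h1 : 1 * 1 * (8 * 1 * 3 ^ r) ≤ n * n * (8 * r * 3 ^ r) := by
        refine Nat.mul_le_mul (Nat.mul_le_mul hn hn) (Nat.mul_le_mul_right _
          (Nat.mul_le_mul_left _ (by omega)))
      omega
    have hs1 : 1 ≤ s := by omega
    have hmD : m ≤ D * s := by
      have h1 : (6 + w + 2 * K) * 1 ≤ (6 + w + 2 * K) * s := Nat.mul_le_mul_left _ hs1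
      have h2 : D * s = 2 * s + (6 + w + 2 * K) * s := by rw [hD]; ring
      omega
    -- the exponential
    have hlarge : (7776 : ℝ) * 4 ^ S * r ≤ ((3 : ℝ) ^ r) ^ (ε / 2) := by
      refine exp_large (half_pos hε) ?_ hS2 hr'
      have h1 : (1 : ℝ) ≤ (EE K : ℕ) := by
        have : 1 ≤ EE K := by
          rw [hEE]
          omega
        exact_mod_cast this
      have h2 : (186624 : ℝ) * ((C : ℝ) + 3) ≤ ((186624 * EE K : ℕ) : ℝ) * ((C : ℝ) + 3) := by
        refine mul_le_mul_of_nonneg_right ?_ (by positivity)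
        push_cast
        linarith
      refine (h2.trans hC).trans ?_
      refine pow_le_pow_left₀ (by positivity) ?_ _
      exact Real.rpow_le_rpow_of_exponent_le (by norm_num) (by linarith)
    have hE : (EE K : ℝ) ≤ ((3 : ℝ) ^ r) ^ (ε / 2) := by
      have h1 : (EE K : ℝ) ≤ ((3 : ℝ) ^ (ε / 2)) ^ (C + 3) := by
        refine le_trans ?_ hC
        push_cast
        have h2 : (0 : ℝ) ≤ EE K := Nat.cast_nonneg _
        have h3 : (0 : ℝ) ≤ C := Nat.cast_nonneg _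
        nlinarith [mul_nonneg h2 h3]
      refine h1.trans ?_
      have h2 : (1 : ℝ) ≤ (3 : ℝ) ^ (ε / 2) := Real.one_le_rpow (by norm_num) (by linarith)
      refine (pow_le_pow_right₀ h2 hrC).trans (le_of_eq ?_)
      rw [← Real.rpow_natCast, ← Real.rpow_natCast, ← Real.rpow_mul (by norm_num),
        ← Real.rpow_mul (by norm_num), mul_comm]
    have hbig : (EE K : ℝ) * (4 ^ S * r) ≤ (N : ℝ) ^ ε := by
      have h1 : ((3 : ℝ) ^ r) ^ ε ≤ (N : ℝ) ^ ε := by
        refine Real.rpow_le_rpow (by positivity) ?_ hε.le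
        have h2 : 3 ^ r ≤ N := by omega
        exact_mod_cast h2
      refine le_trans ?_ h1
      have h2 : ((3 : ℝ) ^ r) ^ ε = ((3 : ℝ) ^ r) ^ (ε / 2) * ((3 : ℝ) ^ r) ^ (ε / 2) := by
        rw [← Real.rpow_add (by positivity), add_halves]
      rw [h2]
      refine mul_le_mul hE (le_trans ?_ hlarge) (by positivity) (by positivity)
      have h3 : (0 : ℝ) ≤ 4 ^ S * (r : ℝ) := by positivity
      linarith [h3]
    -- the conclusion
    have hr0 : 0 < r := by omega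
    have h1 : (k : ℝ) * ((EE K : ℝ) * (4 ^ S * r)) ≤ 2 * (D * (4 ^ S * (8 * r * 3 ^ r))) := by
      refine ((mul_le_mul_of_nonneg_left hbig (Nat.cast_nonneg k)).trans hkN).trans ?_
      have h2 : m ≤ D * (4 ^ S * (8 * r * 3 ^ r)) := hmD.trans (Nat.mul_le_mul_left _ hN1')
      have h3 : (m : ℝ) ≤ D * (4 ^ S * (8 * r * 3 ^ r)) := by exact_mod_cast h2
      linarith
    have h2 : k * (EE K * (4 ^ S * r)) ≤ 2 * (D * (4 ^ S * (8 * r * 3 ^ r))) := by
      exact_mod_cast h1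
    have h3 : (16 * (D * (4 ^ S * r))) * (3888 * (K * k)) ≤ (16 * (D * (4 ^ S * r))) * 3 ^ r := by
      calc (16 * (D * (4 ^ S * r))) * (3888 * (K * k)) = k * (EE K * (4 ^ S * r)) := by
            rw [hEE]
            ring
        _ ≤ 2 * (D * (4 ^ S * (8 * r * 3 ^ r))) := h2
        _ = _ := by ring
    exact Nat.le_of_mul_le_mul_left h3 (by positivity)

end Pool.Agent.H677.HD
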