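import Pool.Agent.H677.SC.Dim
import Pool.Agent.H677.SC.Conc

/-!
# Maps of labelled `K`-subsets that correct the parity at one point
-/

set_option autoImplicit false
set_option linter.unusedSectionVars false

namespace Pool.Agent.H677.HD

open Finset Pool.Agent.H677.SC

variable {P : Type} [DecidableEq P] {K : ℕ} {b b' b'' : Finset P → Prop} {q : P}
  {π π' π₂ π₃ : P ≃ P}

/-- The bijection `π` fixes `q`, and `b`, `b'` correspond on the sets without `q`. -/
def TwOk (K : ℕ) (q : P) (b b' : Finset P → Prop) (π : P ≃ P) : Prop :=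
  π q = q ∧ ∀ T : Finset P, T.card = K → ¬ (b T ↔ b' (T.map π.toEmbedding)) → q ∈ T

open Classical in
/-- The correction. -/
noncomputable def corr (q : P) (b b' : Finset P → Prop) (π : P ≃ P) (T : Finset P) : Finset P :=
  if (b T ↔ b' (T.map π.toEmbedding)) then ∅ else {q}

theorem TwOk.mem (h : TwOk K q b b' π) {T : Finset P} (hT : T.card = K)
    (hb : ¬ (b T ↔ b' (T.map π.toEmbedding))) : q ∈ T.map π.toEmbedding := by
  rw [← h.1]
  exact mem_map_of_mem _ (h.2 T hT hb)

/-- The twisted map. -/
noncomputable def tw (h : TwOk K q b b' π) (x : Pt K b) : Pt K b' where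
  T := x.T.map π.toEmbedding
  A := symmDiff (x.A.map π.toEmbedding) (corr q b b' π x.T)
  hT := by rw [card_map, x.hT]
  hA := by
    intro p hp
    rw [mem_symmDiff] at hp
    rcases hp with hp | hp
    · exact map_subset_map.2 x.hA hp.1
    · have h1 := hp.1
      unfold corr at h1
      split_ifs at h1 with h2
      · exact absurd h1 (notMem_empty p)
      · rw [mem_singleton.1 h1]
        exact h.mem x.hT h2
  odd := by
    rw [odd_card_symmDiff, card_map, x.odd]
    unfold corr
    split_ifs with h2
    · rw [card_empty, ← h2]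
      have h3 : ¬ Odd 0 := by decide
      tauto
    · rw [card_singleton]
      have h3 : Odd 1 := by decide
      tauto

theorem map_map_trans (h : ∀ p, π₃ p = π₂ (π p)) (s : Finset P) :
    (s.map π.toEmbedding).map π₂.toEmbedding = s.map π₃.toEmbedding := by
  rw [map_map]
  ext p
  simp only [mem_map, Function.Embedding.trans_apply, Equiv.coe_toEmbedding]
  simp only [h]

theorem map_corr (hq : π₂ q = q) (T : Finset P) :
    (corr q b b' π T).map π₂.toEmbedding = corr q b b' π T := by
  unfold corr
  split_ifs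
  · exact map_empty _
  · rw [map_singleton]
    show {π₂ q} = _
    rw [hq]

theorem corr_comp (h : ∀ p, π₃ p = π₂ (π p)) (T : Finset P) :
    symmDiff (corr q b b' π T) (corr q b' b'' π₂ (T.map π.toEmbedding)) =
      corr q b b'' π₃ T := by
  unfold corr
  rw [map_map_trans h]
  by_cases h1 : b T <;> by_cases h2 : b' (T.map π.toEmbedding) <;>
    by_cases h3 : b'' (T.map π₃.toEmbedding) <;> simp [h1, h2, h3]

theorem tw_comp (h₁ : TwOk K q b b' π) (h₂ : TwOk K q b' b'' π₂) (h₃ : TwOk K q b b'' π₃)
    (h : ∀ p, π₃ p = π₂ (π p)) (x : Pt K b) : tw h₂ (tw h₁ x) = tw h₃ x := by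
  refine Pt.ext (map_map_trans h x.T) ?_
  show symmDiff ((symmDiff (x.A.map π.toEmbedding) (corr q b b' π x.T)).map π₂.toEmbedding)
    (corr q b' b'' π₂ (x.T.map π.toEmbedding)) = symmDiff (x.A.map π₃.toEmbedding)
      (corr q b b'' π₃ x.T)
  rw [map_symmDiffP, map_map_trans h, map_corr h₂.1, symmDiff_assoc, corr_comp h]

theorem tw_id (h : TwOk K q b b π) (hπ : ∀ p, π p = p) (x : Pt K b) : tw h x = x := by
  have h1 : ∀ s : Finset P, s.map π.toEmbedding = s := by
    intro s
    ext p
    simp only [mem_map, Equiv.coe_toEmbedding, hπ, exists_eq_right]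
  refine Pt.ext (h1 x.T) ?_
  show symmDiff (x.A.map π.toEmbedding) (corr q b b π x.T) = x.A
  unfold corr
  rw [h1, h1, if_pos Iff.rfl]
  exact symmDiff_bot _

theorem TwOk.symm (h : TwOk K q b b' π) : TwOk K q b' b π.symm := by
  refine ⟨by rw [Equiv.symm_apply_eq, h.1], fun T hT hb => ?_⟩
  have h1 : (T.map π.symm.toEmbedding).map π.toEmbedding = T := by
    ext p
    simp only [mem_map, Equiv.coe_toEmbedding, exists_exists_and_eq_and, Equiv.apply_symm_apply,
      exists_eq_right]
  have h2 := h.mem (T := T.map π.symm.toEmbedding) (by rw [card_map, hT]) (by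
    rw [h1]
    exact fun h3 => hb h3.symm)
  rwa [h1] at h2

/-- The twisted map as a bijection. -/
noncomputable def twE (h : TwOk K q b b' π) : Pt K b ≃ Pt K b' where
  toFun := tw h
  invFun := tw h.symm
  left_inv x := by
    have h3 : TwOk K q b b (Equiv.refl P) := ⟨rfl, fun T _ hb => (hb (by
      rw [show (Equiv.refl P).toEmbedding = Function.Embedding.refl P from rfl,
        Finset.map_refl])).elim⟩
    rw [tw_comp h h.symm h3 fun p => (π.symm_apply_apply p).symm]
    exact tw_id h3 (fun _ => rfl) x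
  right_inv x := by
    have h3 : TwOk K q b' b' (Equiv.refl P) := ⟨rfl, fun T _ hb => (hb (by
      rw [show (Equiv.refl P).toEmbedding = Function.Embedding.refl P from rfl,
        Finset.map_refl])).elim⟩
    rw [tw_comp h.symm h h3 fun p => (π.apply_symm_apply p).symm]
    exact tw_id h3 (fun _ => rfl) x

theorem tw_congr (h : TwOk K q b b' π) (h' : TwOk K q b b' π') (x : Pt K b)
    (hx : ∀ p ∈ x.T, π p = π' p) : tw h x = tw h' x := by
  have h1 : ∀ s ⊆ x.T, s.map π.toEmbedding = s.map π'.toEmbedding := by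
    intro s hs
    ext p
    simp only [mem_map, Equiv.coe_toEmbedding]
    exact exists_congr fun a => and_congr_right fun ha => by rw [hx a (hs ha)]
  refine Pt.ext (h1 _ Subset.rfl) ?_
  show symmDiff (x.A.map π.toEmbedding) (corr q b b' π x.T) =
    symmDiff (x.A.map π'.toEmbedding) (corr q b b' π' x.T)
  unfold corr
  rw [h1 _ x.hA, h1 _ Subset.rfl]

theorem tw_adj (h : TwOk K q b b' π) (x y : Pt K b)
    (hx : b x.T ↔ b' (x.T.map π.toEmbedding)) (hy : b y.T ↔ b' (y.T.map π.toEmbedding)) :
    (sg K b).Adj x y ↔ (sg K b').Adj (tw h x) (tw h y) := by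
  have e : ∀ z : Pt K b, (b z.T ↔ b' (z.T.map π.toEmbedding)) →
      (tw h z).A = z.A.map π.toEmbedding := by
    intro z hz
    show symmDiff (z.A.map π.toEmbedding) (corr q b b' π z.T) = z.A.map π.toEmbedding
    unfold corr
    rw [if_pos hz]
    exact symmDiff_bot _
  rw [sg_adj, sg_adj, e x hx, e y hy]
  refine and_congr ?_ ?_
  · show _ ↔ ((x.T.map π.toEmbedding) ∩ (y.T.map π.toEmbedding)).card + 1 = K
    rw [← map_inter, card_map]
  · exact (lab_map π _ _ _ _).symm

end Pool.Agent.H677.HD
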